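import Pool.Agent.CV.Curve

/-!
# A curve through the centre of a place

Let `V` be a valuation ring of the field `E` over `k` with the residue field `k`, and `T` a finite
subset of `E`. There is a curve with the function field `F`, a homomorphism `ψ` from the algebra
generated by the elements of `T` and their inverses to `F`, and a place `v` of `F`, such that `ψ a`
has the same value at `v` as `a` at `V`, if `a` or `a⁻¹` is in `T` and `a` is in `V`.
-/

set_option autoImplicit false

noncomputable section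

namespace Pool.Agent.CV

open Pool.Agent.ZCyc Pool.Agent.Dess Polynomial

variable {k : Type} [Field k] {E : Type} [Field E] [Algebra k E]

/-- a homomorphism from its graph -/
theorem exists_algHom {F : Type} [Field F] [Algebra k F] (A : Subalgebra k E)
    (Γ : Subalgebra k (E × F)) (hΓ : ∀ y, ((0 : E), y) ∈ Γ → y = 0)
    (hA : ∀ a ∈ A, ∃ y, (a, y) ∈ Γ) : ∃ ψ : A →ₐ[k] F, ∀ a : A, ((a : E), ψ a) ∈ Γ := by
  choose f hf using fun a : A => hA a a.2
  have huniq : ∀ (x : E) (y y' : F), (x, y) ∈ Γ → (x, y') ∈ Γ → y = y' := by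
    intro x y y' h h'
    have h1 := Γ.sub_mem h h'
    rw [Prod.mk_sub_mk, sub_self] at h1
    exact sub_eq_zero.1 (hΓ _ h1)
  refine ⟨{
    toFun := f
    map_one' := huniq _ _ _ (hf 1) Γ.one_mem
    map_mul' := fun a b => huniq _ _ _ (hf (a * b)) (Γ.mul_mem (hf a) (hf b))
    map_zero' := huniq _ _ _ (hf 0) Γ.zero_mem
    map_add' := fun a b => huniq _ _ _ (hf (a + b)) (Γ.add_mem (hf a) (hf b))
    commutes' := fun c => huniq _ _ _ (hf (algebraMap k A c)) (Γ.algebraMap_mem c) }, hf⟩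

/-- the elements of a finite set and their inverses -/
def withInv (T : Finset E) : Set E := (T : Set E) ∪ (fun x => x⁻¹) '' T

/-- the graph of the residue map -/
private def gres (V : ValuationSubring E) (hk : ∀ c : k, algebraMap k E c ∈ V) :
    Subalgebra k (E × k) where
  carrier := {p | p.1 ∈ V ∧ V.valuation (p.1 - algebraMap k E p.2) < 1}
  mul_mem' := by
    rintro ⟨a, c⟩ ⟨b, d⟩ ⟨ha, hac⟩ ⟨hb, hbd⟩
    refine ⟨mul_mem ha hb, ?_⟩
    have h1 : a * b - algebraMap k E (c * d) =
        (a - algebraMap k E c) * b + (b - algebraMap k E d) * algebraMap k E c := by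
      rw [map_mul]
      ring
    show V.valuation (a * b - algebraMap k E (c * d)) < 1
    rw [h1]
    refine lt_of_le_of_lt (V.valuation.map_add _ _) (max_lt ?_ ?_)
    · rw [map_mul]
      exact mul_lt_one_of_lt_of_le hac ((V.valuation_le_one_iff _).2 hb)
    · rw [map_mul]
      exact mul_lt_one_of_lt_of_le hbd ((V.valuation_le_one_iff _).2 (hk c))
  add_mem' := by
    rintro ⟨a, c⟩ ⟨b, d⟩ ⟨ha, hac⟩ ⟨hb, hbd⟩
    refine ⟨add_mem ha hb, ?_⟩
    have h1 : a + b - algebraMap k E (c + d) =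
        (a - algebraMap k E c) + (b - algebraMap k E d) := by
      rw [map_add]
      ring
    show V.valuation (a + b - algebraMap k E (c + d)) < 1
    rw [h1]
    exact lt_of_le_of_lt (V.valuation.map_add _ _) (max_lt hac hbd)
  algebraMap_mem' := by
    intro c
    refine ⟨hk c, ?_⟩
    show V.valuation (algebraMap k E c - algebraMap k E c) < 1
    rw [sub_self, map_zero]
    exact zero_lt_one

/-- the graph of the extension of `ψ₀` to fractions -/
private def gfrac {F : Type} [Field F] [Algebra k F] {R : Subalgebra k E} (ψ₀ : R →ₐ[k] F) :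
    Subalgebra k (E × F) where
  carrier := {p | ∃ r s : R, ψ₀ s ≠ 0 ∧ p.1 * s = r ∧ p.2 * ψ₀ s = ψ₀ r}
  mul_mem' := by
    rintro ⟨a, c⟩ ⟨b, d⟩ ⟨r, s, hs, h1, h2⟩ ⟨r', s', hs', h1', h2'⟩
    refine ⟨r * r', s * s', ?_, ?_, ?_⟩
    · rw [map_mul]
      exact mul_ne_zero hs hs'
    · simp only [Prod.mk_mul_mk, MulMemClass.coe_mul] at h1 h1' ⊢
      rw [← h1, ← h1']
      ring
    · simp only [Prod.mk_mul_mk, map_mul] at h2 h2' ⊢
      rw [← h2, ← h2']
      ring
  add_mem' := by
    rintro ⟨a, c⟩ ⟨b, d⟩ ⟨r, s, hs, h1, h2⟩ ⟨r', s', hs', h1', h2'⟩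
    refine ⟨r * s' + r' * s, s * s', ?_, ?_, ?_⟩
    · rw [map_mul]
      exact mul_ne_zero hs hs'
    · simp only [Prod.mk_add_mk, MulMemClass.coe_mul, AddMemClass.coe_add] at h1 h1' ⊢
      rw [← h1, ← h1']
      ring
    · simp only [Prod.mk_add_mk, map_mul, map_add] at h2 h2' ⊢
      rw [← h2, ← h2']
      ring
  algebraMap_mem' := by
    intro c
    refine ⟨algebraMap k R c, 1, ?_, ?_, ?_⟩
    · rw [map_one]
      exact one_ne_zero
    · show algebraMap k E c * ((1 : R) : E) = algebraMap k E c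
      rw [OneMemClass.coe_one, mul_one]
    · show algebraMap k F c * ψ₀ 1 = ψ₀ (algebraMap k R c)
      rw [map_one, mul_one, AlgHom.commutes]

/-- **A curve through the centre of a place.** -/
theorem exists_curve_of_val [IsAlgClosed k] (V : ValuationSubring E)
    (hk : ∀ c : k, algebraMap k E c ∈ V)
    (hV : ∀ x ∈ V, ∃ c : k, V.valuation (x - algebraMap k E c) < 1) (T : Finset E) :
    ∃ (F : Type) (_ : Field F) (_ : Algebra k F) (_ : IsCurve k F)
      (ψ : Algebra.adjoin k (withInv T) →ₐ[k] F) (v : Place k F),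
      ∀ (a : Algebra.adjoin k (withInv T)) (c : k), (a : E) ∈ withInv T →
        V.valuation ((a : E) - algebraMap k E c) < 1 → v.At (ψ a) c := by
  classical
  -- the regular elements
  let S : Finset E := (T ∪ T.image fun x => x⁻¹).filter fun x => x ∈ V
  have hS : ∀ x, x ∈ S ↔ x ∈ withInv T ∧ x ∈ V := by
    intro x
    simp only [S, Finset.mem_filter, Finset.mem_union, Finset.mem_image, withInv, Set.mem_union,
      Finset.mem_coe, Set.mem_image]
  let R : Subalgebra k E := Algebra.adjoin k (S : Set E)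
  have hRV : ∀ r ∈ R, r ∈ V := by
    intro r hr
    induction hr using Algebra.adjoin_induction with
    | mem x hx => exact ((hS x).1 hx).2
    | algebraMap c => exact hk c
    | add x y _ _ hx hy => exact add_mem hx hy
    | mul x y _ _ hx hy => exact mul_mem hx hy
  have hconst : ∀ c : k, V.valuation (algebraMap k E c) < 1 → c = 0 := by
    intro c hc
    by_contra h0
    have h1 : V.valuation (algebraMap k E c⁻¹) ≤ 1 := (V.valuation_le_one_iff _).2 (hk _)
    have h2 := mul_lt_one_of_lt_of_le hc h1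
    rw [← map_mul, ← map_mul, mul_inv_cancel₀ h0, map_one, map_one] at h2
    exact lt_irrefl _ h2
  obtain ⟨e, he⟩ := exists_algHom (F := k) R (gres V hk) (by
    rintro c ⟨-, hc⟩
    apply hconst
    have h1 : V.valuation (0 - algebraMap k E c) < 1 := hc
    rwa [zero_sub, Valuation.map_neg] at h1) fun a ha => by
      obtain ⟨c, hc⟩ := hV a (hRV a ha)
      exact ⟨c, hRV a ha, hc⟩
  have hmem : ∀ x ∈ S, x ∈ R := fun x hx => Algebra.subset_adjoin hx
  -- the elements which must not vanish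
  let fac : E → R := fun t => if h : t ∈ R then ⟨t, h⟩ else if h' : t⁻¹ ∈ R then ⟨t⁻¹, h'⟩ else 1
  let g : R := ∏ t ∈ T.erase 0, fac t
  have hfac : ∀ t ∈ T.erase 0, fac t ≠ 0 := by
    intro t ht h0
    have ht0 := Finset.ne_of_mem_erase ht
    have h1 := congrArg Subtype.val h0
    simp only [fac] at h1
    split_ifs at h1 with h2 h3
    · exact ht0 h1
    · exact inv_ne_zero ht0 h1
    · exact one_ne_zero h1
  have hg : g ≠ 0 := Finset.prod_ne_zero_iff.2 hfac
  have hft : Algebra.FiniteType k R := ⟨(Subalgebra.fg_top R).2 ⟨S, rfl⟩⟩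
  obtain ⟨F, i1, i2, i3, ψ₀, v, hψg, hv⟩ := exists_curve e hg
  have hψfac : ∀ t ∈ T.erase 0, ψ₀ (fac t) ≠ 0 := by
    rw [map_prod, Finset.prod_ne_zero_iff] at hψg
    exact hψg
  have hΓ : ∀ y, ((0 : E), y) ∈ gfrac ψ₀ → y = 0 := by
    rintro y ⟨r, s, hs, h1, h2⟩
    have h3 : r = 0 := by
      apply Subtype.ext
      rw [← h1]
      exact zero_mul _
    have h4 : y * ψ₀ s = ψ₀ r := h2
    rw [h3, map_zero] at h4
    exact (mul_eq_zero.1 h4).resolve_right hs
  have hin : ∀ x ∈ withInv T, ∃ y, (x, y) ∈ gfrac ψ₀ := by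
    intro x hx
    by_cases hxV : x ∈ V
    · have hxR := hmem x ((hS x).2 ⟨hx, hxV⟩)
      refine ⟨ψ₀ ⟨x, hxR⟩, ⟨x, hxR⟩, 1, ?_, mul_one _, ?_⟩
      · rw [map_one]
        exact one_ne_zero
      · rw [map_one, mul_one]
    · have hx0 : x ≠ 0 := by
        rintro rfl
        exact hxV (zero_mem _)
      have hxV' : x⁻¹ ∈ V := (V.mem_or_inv_mem x).resolve_left hxV
      have hx' : x⁻¹ ∈ withInv T := by
        rcases hx with h | ⟨t, ht, rfl⟩
        · exact Or.inr ⟨x, h, rfl⟩
        · exact Or.inl (by simpa using ht)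
      have hxR : x⁻¹ ∈ R := hmem _ ((hS _).2 ⟨hx', hxV'⟩)
      have hxR' : x ∉ R := fun h => hxV (hRV x h)
      have hne : ψ₀ ⟨x⁻¹, hxR⟩ ≠ 0 := by
        rcases hx with h | ⟨t, ht, rfl⟩
        · have h1 := hψfac x (Finset.mem_erase.2 ⟨hx0, h⟩)
          have h2 : fac x = ⟨x⁻¹, hxR⟩ := by
            simp only [fac]
            rw [dif_neg hxR', dif_pos hxR]
          rwa [h2] at h1
        · have ht0 : t ≠ 0 := fun h => hx0 (by
            show t⁻¹ = 0
            rw [h, inv_zero])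
          have htR : t ∈ R := by simpa using hxR
          have h1 := hψfac t (Finset.mem_erase.2 ⟨ht0, ht⟩)
          have h2 : fac t = ⟨(fun x => x⁻¹) t⁻¹, by simpa using htR⟩ := by
            apply Subtype.ext
            simp only [fac]
            rw [dif_pos htR]
            exact (inv_inv t).symm
          have h3 : (⟨(t⁻¹)⁻¹, hxR⟩ : R) = fac t := by
            rw [h2]
          exact fun h4 => h1 (by rw [← h3]; exact h4)
      refine ⟨(ψ₀ ⟨x⁻¹, hxR⟩)⁻¹, 1, ⟨x⁻¹, hxR⟩, hne, ?_, ?_⟩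
      · exact mul_inv_cancel₀ hx0
      · rw [map_one]
        exact inv_mul_cancel₀ hne
  have hA : ∀ a ∈ Algebra.adjoin k (withInv T), ∃ y, (a, y) ∈ gfrac ψ₀ := by
    intro a ha
    induction ha using Algebra.adjoin_induction with
    | mem x hx => exact hin x hx
    | algebraMap c => exact ⟨algebraMap k F c, (gfrac ψ₀).algebraMap_mem c⟩
    | add x y _ _ hx hy =>
      obtain ⟨a, ha⟩ := hx
      obtain ⟨b, hb⟩ := hy
      exact ⟨a + b, (gfrac ψ₀).add_mem ha hb⟩
    | mul x y _ _ hx hy =>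
      obtain ⟨a, ha⟩ := hx
      obtain ⟨b, hb⟩ := hy
      exact ⟨a * b, (gfrac ψ₀).mul_mem ha hb⟩
  obtain ⟨ψ, hψ⟩ := exists_algHom (Algebra.adjoin k (withInv T)) (gfrac ψ₀) hΓ hA
  refine ⟨F, i1, i2, i3, ψ, v, fun a c ha hc => ?_⟩
  have haV : (a : E) ∈ V := by
    have h1 : (a : E) = ((a : E) - algebraMap k E c) + algebraMap k E c := by ring
    rw [h1]
    exact add_mem ((V.valuation_le_one_iff _).1 hc.le) (hk c)
  have haR := hmem _ ((hS _).2 ⟨ha, haV⟩)
  have h1 : ψ a = ψ₀ ⟨a, haR⟩ := by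
    obtain ⟨r, s, hs, h2, h3⟩ := hψ a
    have h4 : (⟨a, haR⟩ : R) * s = r := Subtype.ext h2
    have h5 : ψ a * ψ₀ s = ψ₀ r := h3
    rw [← h4, map_mul] at h5
    exact mul_right_cancel₀ hs h5
  have h2 : e ⟨a, haR⟩ = c := by
    have h3 : V.valuation ((a : E) - algebraMap k E (e ⟨a, haR⟩)) < 1 := (he ⟨a, haR⟩).2
    have h4 : V.valuation (algebraMap k E (e ⟨a, haR⟩ - c)) < 1 := by
      have h5 : algebraMap k E (e ⟨a, haR⟩ - c) = ((a : E) - algebraMap k E c) -
          ((a : E) - algebraMap k E (e ⟨a, haR⟩)) := by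
        rw [map_sub]
        ring
      rw [h5]
      exact lt_of_le_of_lt (V.valuation.map_sub _ _) (max_lt hc h3)
    exact sub_eq_zero.1 (hconst _ h4)
  rw [h1, ← h2]
  exact hv _

end Pool.Agent.CV
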