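import Mathlib

/-!
# Extension of points to places

Let `k` be an algebraically closed field, `E` a field over `k`, `ψ : R → E` and `e : R → k`
homomorphisms of algebras over `k`, such that the kernel of `ψ` is contained in the kernel of `e`.
There is a valuation ring of `E` with the residue field `k` such that `ψ r` has the residue `e r`
for all `r` in `R`.
-/

set_option autoImplicit false

noncomputable section

namespace Pool.Agent.CV

open Polynomial

variable {k : Type} [Field k] {E : Type} [Field E] [Algebra k E]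

/-- subalgebras of `E × k` which are graphs -/
private def Graph (G : Subalgebra k (E × k)) : Prop := ∀ c : k, ((0 : E), c) ∈ G → c = 0

private theorem graph_chain (c : Set (Subalgebra k (E × k))) (hc : IsChain (· ≤ ·) c)
    (hne : c.Nonempty) (h : ∀ G ∈ c, Graph G) :
    ∃ G, Graph G ∧ ∀ G' ∈ c, G' ≤ G := by
  refine ⟨sSup c, fun a ha => ?_, fun G' hG' => le_sSup hG'⟩
  have hdir : DirectedOn (· ≤ ·) c := hc.directedOn
  have : Nonempty c := hne.to_subtype
  have h1 : ((0 : E), a) ∈ (⨆ G : c, (G : Subalgebra k (E × k))) := by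
    rwa [← sSup_eq_iSup']
  have hd : Directed (· ≤ ·) fun G : c => (G : Subalgebra k (E × k)) := by
    intro x y
    obtain ⟨z, hz, hxz, hyz⟩ := hdir x x.2 y y.2
    exact ⟨⟨z, hz⟩, hxz, hyz⟩
  have h2 : ((0 : E), a) ∈ ((⨆ G : c, (G : Subalgebra k (E × k)) : Subalgebra k (E × k)) :
      Set (E × k)) := h1
  rw [Subalgebra.coe_iSup_of_directed hd, Set.mem_iUnion] at h2
  obtain ⟨G, hG⟩ := h2
  exact h G G.2 a hG

/-- the extension of a graph by `x ↦ c` -/
private def big (V : ValuationSubring E) (hV : ∀ a : k, algebraMap k E a ∈ V) (x : E) (hx : x ∈ V)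
    (c : k) : Subalgebra k (E × k) where
  carrier := {p | p.1 ∈ V ∧ ∃ f : k[X], V.valuation (p.1 - aeval x f) < 1 ∧ p.2 = f.eval c}
  mul_mem' := by
    rintro ⟨a, a'⟩ ⟨b, b'⟩ ⟨ha, f, hf, rfl⟩ ⟨hb, g, hg, rfl⟩
    refine ⟨mul_mem ha hb, f * g, ?_, by simp⟩
    have hfx : aeval x g ∈ V := by
      rw [aeval_eq_sum_range]
      refine sum_mem fun i _ => ?_
      rw [Algebra.smul_def]
      exact mul_mem (hV _) (pow_mem hx i)
    have h1 : a * b - aeval x (f * g) = (a - aeval x f) * aeval x g + a * (b - aeval x g) := by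
      rw [map_mul]
      ring
    show V.valuation (a * b - aeval x (f * g)) < 1
    rw [h1]
    refine lt_of_le_of_lt (V.valuation.map_add _ _) (max_lt ?_ ?_)
    · rw [map_mul]
      exact mul_lt_one_of_lt_of_le hf ((V.valuation_le_one_iff _).2 hfx)
    · rw [map_mul, mul_comm]
      exact mul_lt_one_of_lt_of_le hg ((V.valuation_le_one_iff _).2 ha)
  add_mem' := by
    rintro ⟨a, a'⟩ ⟨b, b'⟩ ⟨ha, f, hf, rfl⟩ ⟨hb, g, hg, rfl⟩
    refine ⟨add_mem ha hb, f + g, ?_, by simp⟩
    have h1 : a + b - aeval x (f + g) = (a - aeval x f) + (b - aeval x g) := by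
      rw [map_add]
      ring
    show V.valuation (a + b - aeval x (f + g)) < 1
    rw [h1]
    exact lt_of_le_of_lt (V.valuation.map_add _ _) (max_lt hf hg)
  algebraMap_mem' := by
    intro a
    refine ⟨hV a, C a, ?_, by simp⟩
    show V.valuation (algebraMap k E a - aeval x (C a)) < 1
    rw [aeval_C, sub_self, map_zero]
    exact zero_lt_one

/-- **Extension of a point to a place** with the residue field `k`. -/
theorem exists_val [IsAlgClosed k] {R : Type} [CommRing R] [Algebra k R] (ψ : R →ₐ[k] E)
    (e : R →ₐ[k] k) (h : ∀ r, ψ r = 0 → e r = 0) :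
    ∃ V : ValuationSubring E, (∀ c : k, algebraMap k E c ∈ V) ∧
      (∀ x ∈ V, ∃ c : k, V.valuation (x - algebraMap k E c) < 1) ∧
      ∀ r : R, V.valuation (ψ r - algebraMap k E (e r)) < 1 := by
  classical
  -- the graph of `e`
  let G₀ : Subalgebra k (E × k) := (AlgHom.prod ψ e).range
  have hG₀ : Graph G₀ := by
    rintro c ⟨r, hr⟩
    have h1 : ψ r = 0 := congrArg Prod.fst hr
    have h2 : e r = c := congrArg Prod.snd hr
    rw [← h2, h r h1]
  obtain ⟨G, hle, hmax⟩ := zorn_le_nonempty₀ {G : Subalgebra k (E × k) | Graph G}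
    (fun c hcs hc G hG => by
      obtain ⟨G', h1, h2⟩ := graph_chain c hc ⟨G, hG⟩ fun G hG => hcs hG
      exact ⟨G', h1, h2⟩) G₀ hG₀
  have hG : Graph G := hmax.1
  -- the domain of the maximal extension
  let A : Subalgebra k E := G.map (AlgHom.fst k E k)
  have hA : ∀ a : E, a ∈ A ↔ ∃ c : k, (a, c) ∈ G := by
    intro a
    constructor
    · rintro ⟨⟨a', c⟩, h, rfl⟩
      exact ⟨c, h⟩
    · rintro ⟨c, h⟩
      exact ⟨(a, c), h, rfl⟩
  -- the kernel
  let I : Ideal A.toSubring :=
    { carrier := {a | ((a : E), (0 : k)) ∈ G}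
      add_mem' := fun {a b} ha hb => by
        have h1 : ((a : E), (0 : k)) ∈ G := ha
        have h2 : ((b : E), (0 : k)) ∈ G := hb
        have h3 := G.add_mem h1 h2
        rwa [Prod.mk_add_mk, add_zero] at h3
      zero_mem' := G.zero_mem
      smul_mem' := by
        rintro ⟨a, ha⟩ b hb
        obtain ⟨c, hc⟩ := (hA a).1 ha
        have h2 : ((b : E), (0 : k)) ∈ G := hb
        have h3 := G.mul_mem hc h2
        rwa [Prod.mk_mul_mk, mul_zero] at h3 }
  have hI : I ≠ ⊤ := by
    intro h
    have h1 : (1 : A.toSubring) ∈ I := h ▸ Submodule.mem_top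
    have h2 : ((1 : E), (0 : k)) ∈ G := h1
    have h3 : ((1 : E), (1 : k)) - ((1 : E), (0 : k)) ∈ G := G.sub_mem G.one_mem h2
    have h4 : ((0 : E), (1 : k)) ∈ G := by
      rwa [Prod.mk_sub_mk, sub_self, sub_zero] at h3
    exact one_ne_zero (hG 1 h4)
  obtain ⟨V, hAV, hIV⟩ := Ideal.image_subset_nonunits_valuationSubring I hI
  have hV : ∀ a : k, algebraMap k E a ∈ V := fun a => hAV (A.algebraMap_mem a)
  have hIV' : ∀ a : E, (a, (0 : k)) ∈ G → V.valuation a < 1 := by
    intro a ha
    have h1 : a ∈ A := (hA a).2 ⟨0, ha⟩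
    exact (ValuationSubring.mem_nonunits_iff V).1 (hIV ⟨⟨a, h1⟩, ha, rfl⟩)
  have hval : ∀ (a : E) (c : k), (a, c) ∈ G → V.valuation (a - algebraMap k E c) < 1 := by
    intro a c h
    apply hIV'
    have h1 := sub_mem h (G.algebraMap_mem c)
    have h2 : ((a, c) : E × k) - algebraMap k (E × k) c = (a - algebraMap k E c, 0) := by
      ext
      · rfl
      · simp
    rwa [h2] at h1
  have hconst : ∀ c : k, V.valuation (algebraMap k E c) < 1 → c = 0 := by
    intro c hc
    by_contra h0
    have h1 : V.valuation (algebraMap k E c⁻¹) ≤ 1 := (V.valuation_le_one_iff _).2 (hV _)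
    have h2 := mul_lt_one_of_lt_of_le hc h1
    rw [← map_mul, ← map_mul, mul_inv_cancel₀ h0, map_one, map_one] at h2
    exact lt_irrefl _ h2
  have hmem : ∀ x ∈ V, x ∈ A := by
    intro x hx
    -- a value for `x`
    obtain ⟨c, hc⟩ : ∃ c : k, ∀ f : k[X], V.valuation (aeval x f) < 1 → f.eval c = 0 := by
      by_cases h : ∃ f : k[X], f ≠ 0 ∧ V.valuation (aeval x f) < 1
      · obtain ⟨f, hf0, hf⟩ := h
        have hsp := (IsAlgClosed.splits f).eq_prod_roots
        rw [hsp, map_mul, aeval_C, map_mul] at hf
        have hlc : f.leadingCoeff ≠ 0 := leadingCoeff_ne_zero.2 hf0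
        obtain ⟨c, hc⟩ : ∃ c : k, V.valuation (x - algebraMap k E c) < 1 := by
          by_contra hcon
          push Not at hcon
          have h1 : 1 ≤ V.valuation (algebraMap k E f.leadingCoeff) := by
            by_contra h2
            exact hlc (hconst _ (not_le.1 h2))
          have h2 : ∀ s : Multiset k, 1 ≤ V.valuation
              (aeval x (Multiset.map (fun a => X - C a) s).prod) := by
            intro s
            induction s using Multiset.induction_on with
            | empty => simp
            | cons b s ih =>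
              rw [Multiset.map_cons, Multiset.prod_cons, map_mul, map_mul]
              have h3 := hcon b
              have h4 : aeval x (X - C b) = x - algebraMap k E b := by simp
              rw [h4]
              exact one_le_mul_of_one_le_of_one_le h3 ih
          exact absurd hf (not_lt.2 (one_le_mul_of_one_le_of_one_le h1 (h2 _)))
        refine ⟨c, fun g hg => ?_⟩
        apply hconst
        have h1 : aeval x g - algebraMap k E (g.eval c) =
            (x - algebraMap k E c) * aeval x (g /ₘ (X - C c)) := by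
          have h2 := congrArg (aeval x) (modByMonic_add_div g (X - C c))
          rw [modByMonic_X_sub_C_eq_C_eval, map_add, map_mul, aeval_C, map_sub, aeval_X,
            aeval_C] at h2
          rw [← h2]
          ring
        have hq : aeval x (g /ₘ (X - C c)) ∈ V := by
          rw [aeval_eq_sum_range]
          refine sum_mem fun i _ => ?_
          rw [Algebra.smul_def]
          exact mul_mem (hV _) (pow_mem hx i)
        have h3 : V.valuation (aeval x g - algebraMap k E (g.eval c)) < 1 := by
          rw [h1, map_mul]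
          exact mul_lt_one_of_lt_of_le hc ((V.valuation_le_one_iff _).2 hq)
        have h4 : algebraMap k E (g.eval c) =
            aeval x g - (aeval x g - algebraMap k E (g.eval c)) := by ring
        rw [h4]
        exact lt_of_le_of_lt (V.valuation.map_sub _ _) (max_lt hg h3)
      · push Not at h
        refine ⟨0, fun f hf => ?_⟩
        by_cases hf0 : f = 0
        · rw [hf0, eval_zero]
        · exact absurd hf (not_lt.2 (h f hf0))
    have h1 : Graph (big V hV x hx c) := by
      rintro a ⟨-, f, hf, rfl⟩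
      apply hc
      have h2 : V.valuation (0 - aeval x f) < 1 := hf
      rwa [zero_sub, Valuation.map_neg] at h2
    have h2 : G ≤ big V hV x hx c := by
      rintro ⟨a, b⟩ hab
      refine ⟨hAV ((hA a).2 ⟨b, hab⟩), C b, ?_, by simp⟩
      show V.valuation (a - aeval x (C b)) < 1
      rw [aeval_C]
      exact hval a b hab
    have h3 := hmax.2 h1 h2
    rw [hA]
    refine ⟨c, h3 ⟨hx, X, ?_, by simp⟩⟩
    show V.valuation (x - aeval x X) < 1
    rw [aeval_X, sub_self, map_zero]
    exact zero_lt_one
  refine ⟨V, hV, fun x hx => ?_, fun r => ?_⟩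
  · obtain ⟨c, hc⟩ := (hA x).1 (hmem x hx)
    exact ⟨c, hval x c hc⟩
  · exact hval _ _ (hle ⟨r, rfl⟩)

end Pool.Agent.CV
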