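import Pool.Agent.CV.Chev
import Pool.Agent.Dess.Defs

/-!
# A curve through a point

Let `R` be a finitely generated domain over the algebraically closed field `k`, `e : R → k` a point
of the corresponding variety and `g ≠ 0` an element of `R`. There is a curve with a rational map to
this variety, a point of the curve with the value `e`, and `g` is not zero on the curve.

Proof: by the normalisation theorem of Noether `R` is integral over a ring of polynomials. We
choose a line through the image of the point on which a multiple of `g` is not zero, and a prime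
ideal of `R` over the ideal of the line which is contained in the kernel of `e` (going down).
-/

set_option autoImplicit false

noncomputable section

namespace Pool.Agent.CV

open Pool.Agent.ZCyc Pool.Agent.Dess Polynomial

variable {k : Type} [Field k]

/-- A place of `F` over a point. -/
theorem exists_place [IsAlgClosed k] {F : Type} [Field F] [Algebra k F] {R : Type} [CommRing R]
    [Algebra k R] (ψ : R →ₐ[k] F) (e : R →ₐ[k] k) (h : ∀ r, ψ r = 0 → e r = 0) {t : F}
    (ht : Transcendental k t) : ∃ v : Place k F, (∀ r, v.At (ψ r) (e r)) ∧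
      ∀ f ∈ v.ring, ∃ c : k, v.At f c := by
  obtain ⟨V, hc, hV, hVe⟩ := exists_val ψ e h
  have hne : V ≠ ⊤ := by
    rintro rfl
    obtain ⟨c, hc'⟩ := hV t trivial
    have h0 : t - algebraMap k F c ≠ 0 := by
      intro h0
      apply ht
      rw [sub_eq_zero.1 h0]
      exact isAlgebraic_algebraMap c
    have h1 : (⊤ : ValuationSubring F).valuation (t - algebraMap k F c)⁻¹ ≤ 1 :=
      (ValuationSubring.valuation_le_one_iff _ _).2 trivial
    have h2 := mul_lt_one_of_lt_of_le hc' h1
    rw [← map_mul, mul_inv_cancel₀ h0, map_one] at h2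
    exact lt_irrefl _ h2
  exact ⟨⟨V, hc, hne⟩, fun r => (ValuationSubring.mem_nonunits_iff V).2 (hVe r),
    fun f hf => by
      obtain ⟨c, hc⟩ := hV f hf
      exact ⟨c, (ValuationSubring.mem_nonunits_iff V).2 hc⟩⟩

/-- A polynomial of several variables which is not zero is not zero on some line through a given
point (`s > 0` variables). -/
private theorem exists_line [Infinite k] {s : ℕ} (N : MvPolynomial (Fin (s + 1)) k) (hN : N ≠ 0)
    (a : Fin (s + 1) → k) : ∃ d : Fin (s + 1) → k, d 0 ≠ 0 ∧
      MvPolynomial.aeval (fun i => C (a i) + C (d i) * X) N ≠ (0 : k[X]) := by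
  have h0 : N * (MvPolynomial.X 0 - MvPolynomial.C (a 0)) ≠ 0 := by
    refine mul_ne_zero hN fun h => ?_
    have h1 := congrArg (MvPolynomial.eval fun _ => a 0 + 1) h
    simp at h1
  obtain ⟨b, hb⟩ : ∃ b : Fin (s + 1) → k,
      MvPolynomial.eval b (N * (MvPolynomial.X 0 - MvPolynomial.C (a 0))) ≠ 0 := by
    by_contra hcon
    push Not at hcon
    exact h0 (MvPolynomial.funext fun b => by rw [hcon b, map_zero])
  rw [map_mul, map_sub, MvPolynomial.eval_X, MvPolynomial.eval_C] at hb
  refine ⟨fun i => b i - a i, right_ne_zero_of_mul hb, fun h => ?_⟩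
  apply left_ne_zero_of_mul hb
  have h1 := congrArg (Polynomial.eval 1) h
  rw [Polynomial.eval_zero] at h1
  have h2 : (Polynomial.aeval (1 : k)).comp
      (MvPolynomial.aeval fun i => C (a i) + C (b i - a i) * X) =
      (MvPolynomial.aeval b : MvPolynomial (Fin (s + 1)) k →ₐ[k] k) := by
    ext i
    simp
  have h3 := DFunLike.congr_fun h2 N
  rw [AlgHom.comp_apply, Polynomial.coe_aeval_eq_eval, h1] at h3
  rw [← MvPolynomial.coe_aeval_eq_eval]
  exact h3.symm

/-- the case of dimension zero -/
private theorem curve_zero [IsAlgClosed k] {R : Type} [CommRing R] [IsDomain R] [Algebra k R]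
    (hint : Algebra.IsIntegral k R) (e : R →ₐ[k] k) {g : R} (hg : g ≠ 0) : ∃ (F : Type)
      (_ : Field F) (_ : Algebra k F) (_ : IsCurve k F) (ψ : R →ₐ[k] F) (v : Place k F),
      ψ g ≠ 0 ∧ ∀ r, v.At (ψ r) (e r) := by
  have hr : ∀ r : R, algebraMap k R (e r) = r := by
    intro r
    obtain ⟨c, hc⟩ := (IsAlgClosed.algebraMap_bijective_of_isIntegral (k := k) (K := R)).2 r
    rw [← hc, AlgHom.commutes]
    rfl
  have hX : Transcendental k (RatFunc.X : RatFunc k) := RatFunc.transcendental_X
  obtain ⟨v, -, -⟩ := exists_place (Algebra.ofId k (RatFunc k)) (AlgHom.id k k)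
    (fun r h => by
      have : algebraMap k (RatFunc k) r = 0 := h
      simpa using this) hX
  refine ⟨RatFunc k, inferInstance, inferInstance, ⟨RatFunc.X, hX, ?_⟩,
    (Algebra.ofId k (RatFunc k)).comp e, v, ?_, fun r => Place.at_const _⟩
  · have h1 : IntermediateField.adjoin k {(RatFunc.X : RatFunc k)} = ⊤ := RatFunc.adjoin_X
    rw [h1]
    refine Module.Finite.of_surjective
      (IsScalarTower.toAlgHom (⊤ : IntermediateField k (RatFunc k))
        (⊤ : IntermediateField k (RatFunc k)) (RatFunc k)).toLinearMap fun x => ?_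
    exact ⟨⟨x, trivial⟩, rfl⟩
  · intro h
    have h1 : algebraMap k (RatFunc k) (e g) = 0 := h
    have h2 : e g = 0 := by simpa using h1
    apply hg
    rw [← hr g, h2, map_zero]

/-- the line through a point -/
private theorem exists_prime [IsAlgClosed k] {R : Type} [CommRing R] [IsDomain R] [Algebra k R]
    {s : ℕ} (φ : MvPolynomial (Fin (s + 1)) k →ₐ[k] R) (hφ : Function.Injective φ)
    (hint : (φ : MvPolynomial (Fin (s + 1)) k →+* R).IsIntegral) (e : R →ₐ[k] k) {g : R}
    (hg : g ≠ 0) : ∃ (a d : Fin (s + 1) → k) (P : Ideal R), d 0 ≠ 0 ∧ P.IsPrime ∧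
      P ≤ RingHom.ker e ∧ g ∉ P ∧ ∀ N : MvPolynomial (Fin (s + 1)) k, φ N ∈ P ↔
        MvPolynomial.aeval (fun i => C (a i) + C (d i) * X) N = (0 : k[X]) := by
  let _ : Algebra (MvPolynomial (Fin (s + 1)) k) R :=
    (φ : MvPolynomial (Fin (s + 1)) k →+* R).toAlgebra
  have hi : Algebra.IsIntegral (MvPolynomial (Fin (s + 1)) k) R := ⟨hint⟩
  have hf : FaithfulSMul (MvPolynomial (Fin (s + 1)) k) R :=
    (faithfulSMul_iff_algebraMap_injective _ _).2 hφ
  obtain ⟨N, hN0, r, hr⟩ := ((hi.isIntegral g).isAlgebraic).exists_nonzero_dvd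
    (mem_nonZeroDivisors_of_ne_zero hg)
  have hr' : φ N = g * r := hr
  obtain ⟨d, hd, hdN⟩ := exists_line N hN0 fun i => e (φ (MvPolynomial.X i))
  let l : MvPolynomial (Fin (s + 1)) k →ₐ[k] k[X] :=
    MvPolynomial.aeval fun i => C (e (φ (MvPolynomial.X i))) + C (d i) * X
  have hp : (RingHom.ker l).IsPrime := RingHom.ker_isPrime l
  have hQ : (RingHom.ker e).IsPrime := RingHom.ker_isPrime e
  have hle : RingHom.ker l ≤ (RingHom.ker e).under (MvPolynomial (Fin (s + 1)) k) := by
    intro f hf
    have h1 : l f = 0 := hf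
    have h2 : (Polynomial.aeval (0 : k)).comp l = e.comp φ := by
      ext i
      simp [l]
    have h3 := DFunLike.congr_fun h2 f
    rw [AlgHom.comp_apply, h1, map_zero] at h3
    exact h3.symm
  obtain ⟨P, hPQ, hP, hPl⟩ := Ideal.exists_ideal_le_liesOver_of_le (p := RingHom.ker l)
    (q := (RingHom.ker e).under (MvPolynomial (Fin (s + 1)) k)) (RingHom.ker e) hle
  have hPN : ∀ N : MvPolynomial (Fin (s + 1)) k, φ N ∈ P ↔ l N = 0 := by
    intro N
    have h1 := hPl.over
    have h2 : N ∈ RingHom.ker l ↔ N ∈ P.under (MvPolynomial (Fin (s + 1)) k) := by rw [← h1]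
    exact h2.symm
  refine ⟨fun i => e (φ (MvPolynomial.X i)), d, P, hd, hP, hPQ, fun h => ?_, hPN⟩
  apply hdN
  exact (hPN N).1 (by rw [hr']; exact P.mul_mem_right r h)

/-- **A curve through a point.** -/
theorem exists_curve [IsAlgClosed k] {R : Type} [CommRing R] [IsDomain R] [Algebra k R]
    [Algebra.FiniteType k R] (e : R →ₐ[k] k) {g : R} (hg : g ≠ 0) : ∃ (F : Type)
      (_ : Field F) (_ : Algebra k F) (_ : IsCurve k F) (ψ : R →ₐ[k] F) (v : Place k F),
      ψ g ≠ 0 ∧ ∀ r, v.At (ψ r) (e r) := by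
  obtain ⟨s, φ, hφ, hint⟩ := exists_integral_inj_algHom_of_fg k R
  rcases s with _ | s
  · refine curve_zero ⟨fun r => ?_⟩ e hg
    obtain ⟨p, hp, hpr⟩ := hint r
    let ε : MvPolynomial (Fin 0) k ≃ₐ[k] k := MvPolynomial.isEmptyAlgEquiv k (Fin 0)
    refine ⟨p.map (ε : MvPolynomial (Fin 0) k →+* k), hp.map _, ?_⟩
    rw [eval₂_map]
    have h1 : (algebraMap k R).comp (ε : MvPolynomial (Fin 0) k →+* k) =
        (φ : MvPolynomial (Fin 0) k →+* R) := by
      refine MvPolynomial.ringHom_ext (fun i => ?_) fun i => i.elim0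
      have h2 : ε (MvPolynomial.C i) = i := ε.commutes i
      have h3 : φ (MvPolynomial.C i) = algebraMap k R i := φ.commutes i
      exact (congrArg (algebraMap k R) h2).trans h3.symm
    rw [h1]
    exact hpr
  obtain ⟨a, d, P, hd, hP, hPe, hgP, hPN⟩ := exists_prime φ hφ hint e hg
  let F := FractionRing (R ⧸ P)
  let ψ : R →ₐ[k] F := (Algebra.algHom k (R ⧸ P) F).comp (Ideal.Quotient.mkₐ k P)
  have hψ : ∀ r, ψ r = 0 ↔ r ∈ P := by
    intro r
    have h1 : ψ r = algebraMap (R ⧸ P) F (Ideal.Quotient.mk P r) := rfl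
    rw [h1, ← Ideal.Quotient.eq_zero_iff_mem]
    exact IsFractionRing.to_map_eq_zero_iff
  let t : F := ψ (φ (MvPolynomial.X 0))
  have ht : Transcendental k t := by
    rintro ⟨f, hf0, hf⟩
    apply hf0
    have h1 : ψ (φ (aeval (MvPolynomial.X 0) f)) = 0 := by
      rw [← Polynomial.aeval_algHom_apply, ← Polynomial.aeval_algHom_apply]
      exact hf
    rw [hψ, hPN, ← Polynomial.aeval_algHom_apply, MvPolynomial.aeval_X] at h1
    have h2 : f.comp (C (a 0) + C (d 0) * X) = 0 := by
      rw [← h1, Polynomial.aeval_def, Polynomial.comp]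
      rfl
    have h3 := congrArg (fun q : k[X] => q.comp (C (d 0)⁻¹ * (X - C (a 0)))) h2
    simp only [zero_comp, comp_assoc] at h3
    have h4 : (C (a 0) + C (d 0) * X : k[X]).comp (C (d 0)⁻¹ * (X - C (a 0))) = X := by
      simp only [add_comp, mul_comp, C_comp, X_comp]
      rw [← mul_assoc, ← C_mul, mul_inv_cancel₀ hd, C_1, one_mul]
      ring
    rwa [h4, comp_X] at h3
  obtain ⟨v, hv, -⟩ := exists_place ψ e (fun r hr => hPe ((hψ r).1 hr)) ht
  refine ⟨F, inferInstance, inferInstance, ⟨t, ht, ?_⟩, ψ, v, fun h => hgP ((hψ g).1 h), hv⟩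
  -- finiteness
  have hX : ∀ i, ψ (φ (MvPolynomial.X i)) ∈ IntermediateField.adjoin k {t} := by
    intro i
    have h1 : φ (MvPolynomial.X i - MvPolynomial.C (a i) - MvPolynomial.C (d i * (d 0)⁻¹) *
        (MvPolynomial.X 0 - MvPolynomial.C (a 0))) ∈ P := by
      rw [hPN]
      have h2 : (C (d i * (d 0)⁻¹) * C (d 0) : k[X]) = C (d i) := by
        rw [← C_mul, mul_assoc, inv_mul_cancel₀ hd, mul_one]
      simp only [map_sub, map_mul, MvPolynomial.aeval_X, MvPolynomial.aeval_C,
        Polynomial.algebraMap_eq] at h2 ⊢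
      linear_combination (-X : k[X]) * h2
    rw [← hψ, map_sub, map_sub, map_sub, map_sub, map_mul, map_mul, map_sub, map_sub] at h1
    have hC : ∀ c : k, ψ (φ (MvPolynomial.C c)) = algebraMap k F c := by
      intro c
      have h3 : φ (MvPolynomial.C c) = algebraMap k R c := φ.commutes c
      rw [h3, AlgHom.commutes]
    rw [hC, hC, hC] at h1
    have h3 : ψ (φ (MvPolynomial.X i)) = algebraMap k F (a i) +
        algebraMap k F (d i * (d 0)⁻¹) * (t - algebraMap k F (a 0)) := by
      linear_combination h1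
    rw [h3]
    have ht' : t ∈ IntermediateField.adjoin k {t} :=
      IntermediateField.subset_adjoin k _ (Set.mem_singleton t)
    exact add_mem (IntermediateField.algebraMap_mem _ _) (mul_mem
      (IntermediateField.algebraMap_mem _ _) (sub_mem ht' (IntermediateField.algebraMap_mem _ _)))
  have hφK : ∀ N, ψ (φ N) ∈ IntermediateField.adjoin k {t} := by
    intro N
    induction N using MvPolynomial.induction_on with
    | C c =>
      have h3 : φ (MvPolynomial.C c) = algebraMap k R c := φ.commutes c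
      rw [h3, AlgHom.commutes]
      exact IntermediateField.algebraMap_mem _ _
    | add N M hN hM =>
      rw [map_add, map_add]
      exact add_mem hN hM
    | mul_X N i hN =>
      rw [map_mul, map_mul]
      exact mul_mem hN (hX i)
  have hK : ∀ r, IsAlgebraic (IntermediateField.adjoin k {t}) (ψ r) := by
    intro r
    obtain ⟨p, hp, hpr⟩ := hint r
    let χ : MvPolynomial (Fin (s + 1)) k →+* IntermediateField.adjoin k {t} :=
      ((ψ.comp φ : MvPolynomial (Fin (s + 1)) k →ₐ[k] F) :
        MvPolynomial (Fin (s + 1)) k →+* F).codRestrict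
        (IntermediateField.adjoin k {t}).toSubalgebra.toSubring hφK
    refine IsIntegral.isAlgebraic ⟨p.map χ, hp.map _, ?_⟩
    rw [eval₂_map]
    have h1 : (algebraMap (IntermediateField.adjoin k {t}) F).comp χ =
        (ψ : R →+* F).comp (φ : MvPolynomial (Fin (s + 1)) k →+* R) := rfl
    rw [h1]
    have h2 := congrArg ψ hpr
    rw [map_zero] at h2
    rw [← h2]
    exact (Polynomial.hom_eval₂ p (φ : MvPolynomial (Fin (s + 1)) k →+* R) (ψ : R →+* F) r).symm
  have halg : Algebra.IsAlgebraic (IntermediateField.adjoin k {t}) F := by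
    refine ⟨fun x => ?_⟩
    obtain ⟨a, b, -, rfl⟩ := IsFractionRing.div_surjective (A := R ⧸ P) x
    obtain ⟨r, rfl⟩ := Ideal.Quotient.mk_surjective a
    obtain ⟨r', rfl⟩ := Ideal.Quotient.mk_surjective b
    have h1 := hK r
    have h2 := hK r'
    rw [div_eq_mul_inv]
    exact h1.mul h2.inv
  have h1 : Algebra.EssFiniteType k F := Algebra.EssFiniteType.comp k (R ⧸ P) F
  have h2 : Algebra.EssFiniteType (IntermediateField.adjoin k {t}) F :=
    Algebra.EssFiniteType.of_comp k _ F
  exact Algebra.finite_of_essFiniteType_of_isAlgebraic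

end Pool.Agent.CV
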